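import Mathlib
import Pool.Agent.Lib.MP_69a6f7_al.Main

/-!
Q1 of MP_69a6f7_al: for all sufficiently large `n`, for `G = S_n` and for `G = A_n`, and for all
soluble subgroups `H`, `K` of `G`, there is `x` in `G` with `H ∩ K^x = 1`, `K^x = x⁻¹ K x`.

In Mathlib `MulAut.conj x⁻¹` is the map `k ↦ x⁻¹ * k * x`, so that
`K.map (MulAut.conj x⁻¹).toMonoidHom` is the subgroup `K^x`.
-/

namespace Pool.Agent.Results.MP_69a6f7_al.AllLargeDegrees

theorem result : ∃ N : ℕ, ∀ n : ℕ, N ≤ n →
    (∀ H K : Subgroup (Equiv.Perm (Fin n)), Group.IsSolvable H → Group.IsSolvable K →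
      ∃ x : Equiv.Perm (Fin n), H ⊓ K.map (MulAut.conj x⁻¹).toMonoidHom = ⊥) ∧
    (∀ H K : Subgroup (alternatingGroup (Fin n)), Group.IsSolvable H → Group.IsSolvable K →
      ∃ x : alternatingGroup (Fin n), H ⊓ K.map (MulAut.conj x⁻¹).toMonoidHom = ⊥) := by
  obtain ⟨N, hN⟩ := Pool.Agent.Lib.MP_69a6f7_al.exists_bound
  refine ⟨N, fun n hn => ⟨?_, ?_⟩⟩
  · intro H K hH hK
    obtain ⟨y, -, hy⟩ := hN n hn H K hH hK
    refine ⟨y⁻¹, ?_⟩
    rw [Subgroup.eq_bot_iff_forall]
    intro z hz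
    rw [Subgroup.mem_inf] at hz
    obtain ⟨hzH, k, hk, hkz⟩ := hz
    apply hy z hzH
    have h1 : y * k * y⁻¹ = z := by
      rw [← hkz]
      simp [MulAut.conj_apply]
    have h2 : y⁻¹ * z * y = k := by
      rw [← h1]
      group
    rw [h2]
    exact hk
  · intro H K hH hK
    have hH' : Group.IsSolvable (H.map (alternatingGroup (Fin n)).subtype) :=
      Group.isSolvable_of_surjective
        (f := (alternatingGroup (Fin n)).subtype.subgroupMap H)
        ((alternatingGroup (Fin n)).subtype.subgroupMap_surjective H)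
    have hK' : Group.IsSolvable (K.map (alternatingGroup (Fin n)).subtype) :=
      Group.isSolvable_of_surjective
        (f := (alternatingGroup (Fin n)).subtype.subgroupMap K)
        ((alternatingGroup (Fin n)).subtype.subgroupMap_surjective K)
    obtain ⟨y, hy1, hy⟩ := hN n hn _ _ hH' hK'
    have hyA : y ∈ alternatingGroup (Fin n) := Equiv.Perm.mem_alternatingGroup.mpr hy1
    refine ⟨(⟨y, hyA⟩ : alternatingGroup (Fin n))⁻¹, ?_⟩
    rw [Subgroup.eq_bot_iff_forall]
    intro z hz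
    rw [Subgroup.mem_inf] at hz
    obtain ⟨hzH, k, hk, hkz⟩ := hz
    have h1 : (⟨y, hyA⟩ : alternatingGroup (Fin n)) * k * (⟨y, hyA⟩ : alternatingGroup (Fin n))⁻¹
        = z := by
      rw [← hkz]
      simp [MulAut.conj_apply]
    have h2 : y⁻¹ * (z : Equiv.Perm (Fin n)) * y = k := by
      rw [← h1]
      simp only [Subgroup.coe_mul, Subgroup.coe_inv]
      group
    have h3 : (z : Equiv.Perm (Fin n)) = 1 := by
      apply hy z ⟨z, hzH, rfl⟩
      rw [h2]
      exact ⟨k, hk, rfl⟩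
    exact Subtype.ext h3

end Pool.Agent.Results.MP_69a6f7_al.AllLargeDegrees
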